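import Pool.Agent.H46.CD.Inv

set_option autoImplicit false

/-!
# For every degree `d` all but `O(d ^ (4 / 9))` numbers of points are settled for all multiplicities
-/

namespace Pool.Agent.H46.CD

open Finset
open Pool.Agent.Helper153.Vdc (ee dd Cond)
open Pool.Agent.K7.H55.AN

open Classical in
/-- the numbers of one block with `D / √r` near an odd integer -/
theorem block3 (i : ℕ) (D y : ℝ) (hi : 9 ≤ i) (hy0 : 0 < y) (hy3 : y ^ 3 = D) (hD : ((2 : ℝ) ^ i) ^ 9 ≤ 2 * D) :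
    (((range (64 ^ (i + 1) - 64 ^ i)).filter fun j : ℕ => ∃ m : ℕ,
        |D - √(((64 ^ (i + 1) : ℕ) : ℝ) - (j : ℝ)) * (2 * m + 1)| < 80 / 2 ^ i).card : ℝ) ≤
        10 ^ 7 * (2 ^ i * y) := by
  obtain ⟨q, hq⟩ : ∃ q : ℝ, q = (2 : ℝ) ^ i := ⟨_, rfl⟩
  have hq512 : 512 ≤ q := by
    rw [hq]
    calc (512 : ℝ) = 2 ^ 9 := by norm_num
      _ ≤ 2 ^ i := pow_le_pow_right₀ (by norm_num) hi
  have hq0 : 0 < q := by linarith
  have hq6 : q ^ 6 = 64 ^ i := by
    rw [hq, ← pow_mul, mul_comm, pow_mul]; norm_num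
  rw [← hq] at hD ⊢
  have hD0 : 0 < D := by rw [← hy3]; positivity
  -- `y` is large
  have hyq : 3 / 4 * q ^ 3 ≤ y := by
    refine (pow_le_pow_iff_left₀ (by positivity) hy0.le (n := 3) (by norm_num)).1 ?_
    rw [hy3]
    have e : (3 / 4 * q ^ 3) ^ 3 = 27 / 64 * q ^ 9 := by ring
    rw [e]
    have : 0 < q ^ 9 := by positivity
    linarith
  obtain ⟨R0, hR0⟩ : ∃ R0 : ℕ, R0 = 64 ^ i := ⟨_, rfl⟩
  obtain ⟨R1, hR1⟩ : ∃ R1 : ℕ, R1 = 64 ^ (i + 1) := ⟨_, rfl⟩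
  have hR0R : (R0 : ℝ) = q ^ 6 := by rw [hR0, hq6]; push_cast; rfl
  have hR1R : (R1 : ℝ) = 64 * q ^ 6 := by rw [hR1, hq6]; push_cast; ring
  have hR0p : 0 < R0 := by rw [hR0]; positivity
  have hR10 : (0 : ℝ) < R1 := by rw [hR1R]; positivity
  have hR1p : 1 ≤ R1 := by rw [hR1]; exact Nat.one_le_pow _ _ (by norm_num)
  have hsR1 : √(R1 : ℝ) = 8 * q ^ 3 := by
    rw [hR1R, show 64 * q ^ 6 = (8 * q ^ 3) ^ 2 by ring, Real.sqrt_sq (by positivity)]
  rw [← hR0, ← hR1]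
  have hcard : ((range (R1 - R0)).card : ℝ) ≤ 64 * q ^ 6 := by
    rw [card_range, ← hR1R]
    exact_mod_cast Nat.sub_le _ _
  rcases lt_or_ge (q ^ 5) y with hbig | hsmall
  · -- trivial bound
    have h1 : (((range (R1 - R0)).filter fun j : ℕ => ∃ m : ℕ,
        |D - √((R1 : ℝ) - (j : ℝ)) * (2 * m + 1)| < 80 / q).card : ℝ) ≤ (range (R1 - R0)).card := by
      exact_mod_cast card_filter_le _ _
    refine h1.trans (hcard.trans ?_)
    have h2 : q ^ 6 ≤ q * y := by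
      calc q ^ 6 = q * q ^ 5 := by ring
        _ ≤ q * y := mul_le_mul_of_nonneg_left hbig.le hq0.le
    have h3 : 0 < q * y := by positivity
    linarith
  obtain ⟨H, hH⟩ : ∃ H : ℕ, H = ⌊q ^ 5 / y⌋₊ := ⟨_, rfl⟩
  have hH1 : 1 ≤ H := by
    rw [hH]
    apply Nat.floor_pos.2
    rw [le_div_iff₀ hy0, one_mul]
    exact hsmall
  have hH1R : (1 : ℝ) ≤ H := by exact_mod_cast hH1
  have hH0 : (0 : ℝ) < H := by linarith
  have hHle : (H : ℝ) * y ≤ q ^ 5 := by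
    have := Nat.floor_le (show 0 ≤ q ^ 5 / y by positivity)
    rw [← hH, le_div_iff₀ hy0] at this
    exact this
  have hHge : q ^ 5 ≤ 2 * (H * y) := by
    have := Nat.lt_floor_add_one (q ^ 5 / y)
    rw [← hH, div_lt_iff₀ hy0] at this
    have h2 : 1 * y ≤ H * y := mul_le_mul_of_nonneg_right hH1R hy0.le
    linarith
  have hE : ∀ h : ℕ, 1 ≤ h → h < H →
      ‖∑ j ∈ range (R1 - R0), ee (h * ((D / √((R1 : ℝ) - j) - 1) / 2))‖ ≤ 10 ^ 6 * (q * y) := by
    intro h h1 h2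
    have hhR : (1 : ℝ) ≤ h := by exact_mod_cast h1
    have hh0 : (0 : ℝ) < h := by linarith
    have hhy : (h : ℝ) * y ≤ q ^ 5 := by
      have : (h : ℝ) ≤ H := by exact_mod_cast h2.le
      exact (mul_le_mul_of_nonneg_right this hy0.le).trans hHle
    have hc : 0 < (h : ℝ) * D / 2 := by positivity
    have hcond := cond_inv (c := (h : ℝ) * D / 2) hc (R0 := R0) (R1 := R1)
      (δ := 1 / 64) (by norm_num) (by norm_num) hR0p (by rw [hR1R, hR0R]; linarith)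
    obtain ⟨lam, hlam⟩ : ∃ lam : ℝ, lam = 3 * (h * D) / (262144 * q ^ 15) := ⟨_, rfl⟩
    have hlam0 : 0 < lam := by rw [hlam]; positivity
    have elam : (h : ℝ) * D / 2 * (3 / (4 * ((R1 : ℝ) ^ 2 * √(R1 : ℝ)))) = lam := by
      rw [hsR1, hR1R, hlam]
      field_simp
      ring
    rw [elam] at hcond
    have hv := vdc3 (1 / (1 / 64 : ℝ) ^ 3) (by norm_num) R1 (R1 - R0) _ lam hR1p (Nat.sub_le _ _)
      hcond hlam0
    have e1 : ∀ j ∈ range (R1 - R0), ee (h * ((D / √((R1 : ℝ) - j) - 1) / 2)) =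
        ee (-(h * (1 / 2))) * ee ((h : ℝ) * D / 2 * (1 / √((R1 : ℝ) - j))) := by
      intro j _
      rw [← e_eq_ee, ← e_eq_ee, ← e_eq_ee, ← Pool.Agent.H469R2.NK.e_add]
      congr 1
      ring
    have en : ‖ee (-((h : ℝ) * (1 / 2)))‖ = 1 := by
      rw [← e_eq_ee]; exact Pool.Agent.H469R2.NK.norm_e _
    rw [sum_congr rfl e1, ← mul_sum, norm_mul, en, one_mul]
    refine (pow_le_pow_iff_left₀ (norm_nonneg _) (by positivity) two_ne_zero).1 (hv.trans ?_)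
    -- the estimate
    have hL : 1 + Real.log R1 ≤ 12 * q := by
      have h3 : Real.log R1 = 6 * Real.log (2 * q) := by
        rw [hR1R, show 64 * q ^ 6 = (2 * q) ^ 6 by ring, Real.log_pow]
        norm_num
      have h4 := Real.log_le_sub_one_of_pos (show 0 < 2 * q by positivity)
      rw [h3]
      linarith
    have hyy : 9 / 16 * q ^ 6 ≤ y ^ 2 := by
      have := pow_le_pow_left₀ (by positivity) hyq 2
      have e : (3 / 4 * q ^ 3) ^ 2 = 9 / 16 * q ^ 6 := by ring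
      rwa [e] at this
    obtain ⟨Z, hZ⟩ : ∃ Z : ℝ, Z = q ^ 2 * y ^ 2 := ⟨_, rfl⟩
    have hZ0 : 0 < Z := by rw [hZ]; positivity
    have hZ8 : 9 / 16 * q ^ 8 ≤ Z := by
      rw [hZ]
      have := mul_le_mul_of_nonneg_left hyy (show 0 ≤ q ^ 2 by positivity)
      have e : q ^ 2 * (9 / 16 * q ^ 6) = 9 / 16 * q ^ 8 := by ring
      rwa [e] at this
    have hq7 : 512 * q ^ 7 ≤ q ^ 8 := by
      have := mul_le_mul_of_nonneg_right hq512 (show 0 ≤ q ^ 7 by positivity)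
      have e : q * q ^ 7 = q ^ 8 := by ring
      rwa [e] at this
    have t1 : lam * (R1 : ℝ) ^ 2 ≤ Z := by
      have e3 : lam * (R1 : ℝ) ^ 2 = 3 / 64 * ((h * y) * y ^ 2) / q ^ 3 := by
        rw [hlam, hR1R, ← hy3]
        field_simp
        ring
      rw [e3, div_le_iff₀ (by positivity)]
      have h3 := mul_le_mul_of_nonneg_right hhy (show 0 ≤ y ^ 2 by positivity)
      have e4 : Z * q ^ 3 = q ^ 5 * y ^ 2 := by rw [hZ]; ring
      have h5 : 0 < q ^ 5 * y ^ 2 := by positivity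
      linarith
    have t2 : (1 + Real.log R1) * R1 ≤ 3 * Z := by
      have h3 := mul_le_mul_of_nonneg_right hL hR10.le
      rw [hR1R] at h3 ⊢
      have h4 : 12 * q * (64 * q ^ 6) = 768 * q ^ 7 := by ring
      linarith
    have t3 : (1 + Real.log R1) / lam ≤ 7500 * Z := by
      rw [div_le_iff₀ hlam0]
      have h3 : 12 * q ≤ 7500 * Z * lam := by
        have h6 : q ^ 9 ≤ 2 * (h * D) := by
          have : 1 * D ≤ h * D := mul_le_mul_of_nonneg_right hhR hD0.le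
          linarith
        have h7 : 3 * (q ^ 9 / 2) / (262144 * q ^ 15) ≤ lam := by
          rw [hlam]
          gcongr
          linarith
        have h8 : 7500 * (9 / 16 * (512 * q ^ 7)) * (3 * (q ^ 9 / 2) / (262144 * q ^ 15)) ≤ 7500 * Z * lam := by
          gcongr
          linarith
        refine le_trans ?_ h8
        have e4 : 7500 * (9 / 16 * (512 * q ^ 7)) * (3 * (q ^ 9 / 2) / (262144 * q ^ 15)) =
            7500 * 9 / 16 * 512 * 3 / 2 / 262144 * q := by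
          field_simp
        rw [e4]
        have : 12 ≤ (7500 * 9 / 16 * 512 * 3 / 2 / 262144 : ℝ) := by norm_num
        exact mul_le_mul_of_nonneg_right this hq0.le
      linarith
    have e4 : (10 ^ 6 * (q * y)) ^ 2 = 10 ^ 12 * Z := by rw [hZ]; ring
    rw [e4]
    have e5 : (34 * (1 / (1 / 64 : ℝ) ^ 3)) = 8912896 := by norm_num
    rw [e5]
    nlinarith
  have hfe := fejer (range (R1 - R0)) (fun j => (D / √((R1 : ℝ) - (j : ℝ)) - 1) / 2) H hH1
    (10 ^ 6 * (q * y)) hE ((range (R1 - R0)).filter fun j : ℕ => ∃ m : ℕ,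
        |D - √((R1 : ℝ) - (j : ℝ)) * (2 * m + 1)| < 80 / q) (filter_subset _ _) (by
      intro j hj
      obtain ⟨hj, m, hm⟩ := mem_filter.1 hj
      rw [mem_range] at hj
      refine ⟨m, ?_⟩
      have hr : (R0 : ℝ) ≤ (R1 : ℝ) - j := by
        have : R0 + j ≤ R1 := by omega
        have : (R0 : ℝ) + j ≤ R1 := by exact_mod_cast this
        linarith
      have hs : q ^ 3 ≤ √((R1 : ℝ) - j) := by
        apply Real.le_sqrt_of_sq_le
        have e : (q ^ 3) ^ 2 = q ^ 6 := by ring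
        rw [e, ← hR0R]
        exact hr
      obtain ⟨w, hw⟩ : ∃ w, w = √((R1 : ℝ) - j) := ⟨_, rfl⟩
      rw [← hw] at hm hs
      rw [← hw]
      have hw0 : 0 < w := lt_of_lt_of_le (by positivity) hs
      have e1 : (D / w - 1) / 2 - ((m : ℤ) : ℝ) = (D - w * (2 * m + 1)) / (2 * w) := by
        push_cast
        field_simp
        ring
      rw [e1, abs_div, abs_of_pos (show 0 < 2 * w by positivity), div_le_div_iff₀ (by positivity) (by positivity),
        one_mul]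
      have h1 : 80 / q * (8 * H) ≤ 2 * q ^ 3 := by
        rw [div_mul_eq_mul_div, div_le_iff₀ hq0]
        have h2 : (H : ℝ) * (3 / 4 * q ^ 3) ≤ q ^ 5 := (mul_le_mul_of_nonneg_left hyq hH0.le).trans hHle
        have h3 : (3 : ℝ) * H ≤ 4 * q ^ 2 := by
          have h4 : (3 * (H : ℝ)) * q ^ 3 ≤ (4 * q ^ 2) * q ^ 3 := by
            have e : (4 * q ^ 2) * q ^ 3 = 4 * q ^ 5 := by ring
            rw [e]
            linarith
          exact le_of_mul_le_mul_right h4 (by positivity)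
        have h5 : 512 ^ 2 * q ^ 2 ≤ q ^ 4 := by
          have h6 : (512 : ℝ) ^ 2 ≤ q ^ 2 := pow_le_pow_left₀ (by norm_num) hq512 2
          have h7 := mul_le_mul_of_nonneg_right h6 (show 0 ≤ q ^ 2 by positivity)
          have e : q ^ 2 * q ^ 2 = q ^ 4 := by ring
          rwa [e] at h7
        have h6 : 0 < q ^ 2 := by positivity
        have e : 2 * q ^ 3 * q = 2 * q ^ 4 := by ring
        rw [e]
        linarith
      have h2 := mul_le_mul_of_nonneg_right hm.le (show (0 : ℝ) ≤ 8 * H by positivity)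
      linarith)
  refine hfe.trans ?_
  have h1 : ((range (R1 - R0)).card : ℝ) / H ≤ 128 * (q * y) := by
    rw [div_le_iff₀ hH0]
    refine hcard.trans ?_
    have h2 := mul_le_mul_of_nonneg_left hHge (show 0 ≤ 64 * q by positivity)
    have e1 : 64 * q * q ^ 5 = 64 * q ^ 6 := by ring
    have e2 : 64 * q * (2 * (H * y)) = 128 * (q * y) * H := by ring
    rw [e1, e2] at h2
    exact h2
  rw [max_eq_left (by positivity)]
  have h3 : 0 < q * y := by positivity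
  linarith

universe u

open Pool.Agent.H932R2 Pool.Agent.H932R3 Pool.Agent.TH183.QS

/-- the expected dimension in the degree `d` for all multiplicities, every field of characteristic zero -/
def DegAll (r d : ℕ) : Prop := ∀ (L : Type u) [Field L] [CharZero L] (m : ℕ),
    ∃ F : MvPolynomial (Fin (r + 1)) L, F ≠ 0 ∧
      ∀ (c : L) (a : Fin r → L), MvPolynomial.eval (Fin.cons c a : Fin (r + 1) → L) F ≠ 0 →
        JetDim r m c a d

/-- a number of a block that is not settled is near an odd integer -/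
theorem bad_near' {r d i : ℕ} (hi : 8 ≤ i) (hr : 64 ^ i < r) (hbad : ¬ DegAll.{u} r d) :
    ∃ m : ℕ, r < 2 * m ∧ |(2 * (d : ℝ) + 3) - √(r : ℝ) * (2 * m + 1)| < 80 / 2 ^ i := by
  have h10 : 144 ≤ r := by
    have : 64 ^ 8 ≤ 64 ^ i := Nat.pow_le_pow_right (by norm_num) hi
    omega
  unfold DegAll at hbad
  push Not at hbad
  obtain ⟨L, _, _, m, hm⟩ := hbad
  have hbad' : ¬ ∃ F : MvPolynomial (Fin (r + 1)) L, F ≠ 0 ∧
      ∀ (c : L) (a : Fin r → L), MvPolynomial.eval (Fin.cons c a : Fin (r + 1) → L) F ≠ 0 →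
        JetDim r m c a d := by
    rintro ⟨F, hF, hF'⟩
    obtain ⟨c, a, h1, h2⟩ := hm F hF
    exact h2 (hF' c a h1)
  have hsq : ¬ IsSquare r := by
    intro h
    apply hbad'
    obtain ⟨F, hF, hF'⟩ := all_of_square.{u} (m := m) (by omega) h L
    exact ⟨F, hF, fun c a hc => hF' c a hc d⟩
  refine ⟨m, ?_, ?_⟩
  · by_contra hcon
    apply hbad'
    obtain ⟨F, hF, hF'⟩ := all_of_large.{u} (m := m) h10 (by omega) L
    exact ⟨F, hF, fun c a hc => hF' c a hc d⟩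
  · by_contra hcon
    push Not at hcon
    apply hbad'
    obtain ⟨P, hP⟩ : ∃ P : ℕ, P = 2 ^ (i - 2) := ⟨_, rfl⟩
    have hP2 : 2 ≤ P := by
      rw [hP]
      calc 2 = 2 ^ 1 := rfl
        _ ≤ 2 ^ (i - 2) := Nat.pow_le_pow_right (by norm_num) (by omega)
    have hPR : (P : ℝ) * 4 = 2 ^ i := by
      rw [hP]
      push_cast
      rw [show (4 : ℝ) = 2 ^ 2 by norm_num, ← pow_add]
      congr 1
      omega
    have hP0 : (0 : ℝ) < P := by exact_mod_cast (by omega : 0 < P)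
    have hsr : 40 * (P : ℝ) ^ 3 ≤ √(r : ℝ) := by
      have h1 : ((8 : ℝ) ^ i) ≤ √(r : ℝ) := by
        apply Real.le_sqrt_of_sq_le
        rw [← pow_mul, mul_comm, pow_mul]
        norm_num
        exact_mod_cast hr.le
      have h2 : (8 : ℝ) ^ i = ((2 : ℝ) ^ i) ^ 3 := by
        rw [← pow_mul, mul_comm, pow_mul]
        norm_num
      rw [h2, ← hPR] at h1
      have h3 : ((P : ℝ) * 4) ^ 3 = 64 * (P : ℝ) ^ 3 := by ring
      rw [h3] at h1
      have h4 : 0 < (P : ℝ) ^ 3 := by positivity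
      linarith
    obtain ⟨F, hF, hF'⟩ := coll_rate hP2 hsr hsq m L
    refine ⟨F, hF, fun c a hc => hF' c a hc d ?_⟩
    have e1 : (80 : ℝ) / 2 ^ i = 20 / P := by
      rw [← hPR]
      field_simp
      norm_num
    rw [← e1]
    exact hcon

/-- **For every degree all but `O(d ^ (4 / 9))` numbers of points.** -/
theorem few49 : ∃ C : ℝ, 0 < C ∧ ∀ d : ℕ, 1 ≤ d →
    {r : ℕ | 10 ≤ r ∧ ¬ DegAll.{u} r d}.Finite ∧
      (({r : ℕ | 10 ≤ r ∧ ¬ DegAll.{u} r d}.ncard : ℕ) : ℝ) ≤ C * (d : ℝ) ^ ((4 : ℝ) / 9) := by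
  classical
  refine ⟨64 ^ 9 + 2 + 10 ^ 9 * 2, by norm_num, fun d hd => ?_⟩
  have hdR : (1 : ℝ) ≤ d := by exact_mod_cast hd
  obtain ⟨z, hz⟩ : ∃ z : ℝ, z = (d : ℝ) ^ ((4 : ℝ) / 9) := ⟨_, rfl⟩
  have hz1 : 1 ≤ z := by rw [hz]; exact Real.one_le_rpow hdR (by norm_num)
  obtain ⟨D, hD⟩ : ∃ D : ℝ, D = 2 * (d : ℝ) + 3 := ⟨_, rfl⟩
  have hD0 : 0 < D := by rw [hD]; linarith
  obtain ⟨y, hy⟩ : ∃ y : ℝ, y = D ^ ((1 : ℝ) / 3) := ⟨_, rfl⟩
  have hy0 : 0 < y := by rw [hy]; positivity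
  have hy3 : y ^ 3 = D := by
    rw [hy, ← Real.rpow_natCast, ← Real.rpow_mul hD0.le]
    norm_num
  obtain ⟨Im, hIm⟩ : ∃ Im : ℕ → Finset ℕ, Im = fun i =>
      ((range (64 ^ (i + 1) - 64 ^ i)).filter fun j : ℕ => ∃ m : ℕ,
        |D - √(((64 ^ (i + 1) : ℕ) : ℝ) - (j : ℝ)) * (2 * m + 1)| < 80 / 2 ^ i).image
        fun j => 64 ^ (i + 1) - j := ⟨_, rfl⟩
  obtain ⟨I, hI⟩ : ∃ I : ℕ, I = Nat.log 512 (2 * (2 * d + 3)) := ⟨_, rfl⟩
  obtain ⟨Is, hIs⟩ : ∃ Is : Finset ℕ, Is = (range (I + 1)).filter fun i => 9 ≤ i := ⟨_, rfl⟩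
  obtain ⟨T, hT⟩ : ∃ T : Finset ℕ, T = range (64 ^ 9 + 2) ∪ Is.biUnion Im := ⟨_, rfl⟩
  have hsub : {r : ℕ | 10 ≤ r ∧ ¬ DegAll.{u} r d} ⊆ (T : Set ℕ) := by
    rintro r ⟨hr10, hr⟩
    by_contra hrT
    rw [hT, mem_coe, mem_union, not_or, mem_range, not_lt] at hrT
    obtain ⟨hr1, hr2⟩ := hrT
    obtain ⟨i, hi⟩ : ∃ i : ℕ, i = Nat.log 64 (r - 1) := ⟨_, rfl⟩
    have hi1 : 64 ^ i ≤ r - 1 := by rw [hi]; exact Nat.pow_log_le_self 64 (by omega)
    have hi2 : r - 1 < 64 ^ (i + 1) := by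
      rw [hi]
      exact Nat.lt_pow_succ_log_self (by norm_num) _
    have hi9 : 9 ≤ i := by
      rw [hi]
      exact Nat.le_log_of_pow_le (by norm_num) (by omega)
    obtain ⟨m, hm, hDm⟩ := bad_near' (by omega : 8 ≤ i) (by omega) hr
    rw [← hD] at hDm
    -- the degree is large
    have hiI : i ≤ I := by
      rw [hI]
      apply Nat.le_log_of_pow_le (by norm_num)
      have h1 : ((8 : ℝ) ^ i) ≤ √(r : ℝ) := by
        apply Real.le_sqrt_of_sq_le
        rw [← pow_mul, mul_comm, pow_mul]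
        norm_num
        exact_mod_cast (by omega : 64 ^ i ≤ r)
      have h2 : ((64 : ℝ) ^ i) ≤ 2 * m + 1 := by
        have : 64 ^ i ≤ 2 * m + 1 := by omega
        exact_mod_cast this
      have h3 : ((8 : ℝ) ^ i) * (64 : ℝ) ^ i ≤ √(r : ℝ) * (2 * m + 1) :=
        mul_le_mul h1 h2 (by positivity) (Real.sqrt_nonneg _)
      have h4 : ((8 : ℝ) ^ i) * (64 : ℝ) ^ i = (512 : ℝ) ^ i := by
        rw [← mul_pow]; norm_num
      rw [h4] at h3
      have h5 := (abs_lt.1 hDm).1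
      have h6 : (80 : ℝ) / 2 ^ i ≤ 1 := by
        rw [div_le_one (by positivity)]
        calc (80 : ℝ) ≤ 2 ^ 9 := by norm_num
          _ ≤ 2 ^ i := pow_le_pow_right₀ (by norm_num) hi9
      have h7 : (512 : ℝ) ^ i ≤ ((2 * (2 * d + 3) : ℕ) : ℝ) := by
        push_cast
        rw [hD] at h5
        linarith
      exact_mod_cast h7
    apply hr2
    rw [mem_biUnion]
    refine ⟨i, ?_, ?_⟩
    · rw [hIs, mem_filter, mem_range]
      exact ⟨by omega, hi9⟩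
    · rw [hIm]
      beta_reduce
      rw [mem_image]
      have hle : r ≤ 64 ^ (i + 1) := by omega
      refine ⟨64 ^ (i + 1) - r, ?_, by omega⟩
      rw [mem_filter, mem_range]
      refine ⟨by omega, m, ?_⟩
      have e : ((64 ^ (i + 1) : ℕ) : ℝ) - ((64 ^ (i + 1) - r : ℕ) : ℝ) = r := by
        rw [Nat.cast_sub hle]
        ring
      rw [e]
      exact hDm
  refine ⟨(finite_toSet T).subset hsub, ?_⟩
  have h1 := Set.ncard_le_ncard hsub (finite_toSet T)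
  rw [Set.ncard_coe_finset] at h1
  have h2 : T.card ≤ (64 ^ 9 + 2) + ∑ i ∈ Is, (Im i).card := by
    rw [hT]
    refine (card_union_le _ _).trans ?_
    rw [card_range]
    exact Nat.add_le_add_left card_biUnion_le _
  have hpow : ((2 : ℝ) ^ I) ^ 9 ≤ 2 * D := by
    have h3 := Nat.pow_log_le_self 512 (show 2 * (2 * d + 3) ≠ 0 by omega)
    rw [← hI] at h3
    have h4 : ((512 : ℝ) ^ I) ≤ ((2 * (2 * d + 3) : ℕ) : ℝ) := by exact_mod_cast h3
    have h5 : ((2 : ℝ) ^ I) ^ 9 = (512 : ℝ) ^ I := by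
      rw [← pow_mul, mul_comm, pow_mul]; norm_num
    rw [h5, hD]
    push_cast at h4
    exact h4
  have h3 : ((∑ i ∈ Is, (Im i).card : ℕ) : ℝ) ≤ ∑ i ∈ range (I + 1), 10 ^ 7 * ((2 : ℝ) ^ i * y) := by
    rw [Nat.cast_sum]
    have hIs2 : Is ⊆ range (I + 1) := by
      rw [hIs]
      exact filter_subset _ _
    refine le_trans (sum_le_sum fun i hi => ?_) (sum_le_sum_of_subset_of_nonneg hIs2 fun i _ _ => by positivity)
    rw [hIs, mem_filter, mem_range] at hi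
    obtain ⟨hi1, hi9⟩ := hi
    have e1 : ((2 : ℝ) ^ i) ^ 9 ≤ 2 * D := by
      refine le_trans ?_ hpow
      apply pow_le_pow_left₀ (by positivity)
      exact pow_le_pow_right₀ (by norm_num) (by omega)
    have h4 := block3 i D y hi9 hy0 hy3 e1
    refine le_trans ?_ h4
    rw [hIm]
    beta_reduce
    exact_mod_cast card_image_le
  have h4 : ∑ i ∈ range (I + 1), 10 ^ 7 * ((2 : ℝ) ^ i * y) ≤ 2 * 10 ^ 7 * (2 ^ I * y) := by
    rw [← mul_sum, ← sum_mul]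
    have c1 := geom_bound (q := 2) (by norm_num) I
    have c2 := mul_le_mul_of_nonneg_right c1 hy0.le
    linarith
  -- the size
  have hx : (2 : ℝ) ^ I ≤ 10 * (d : ℝ) ^ ((1 : ℝ) / 9) := by
    have e1 : (2 : ℝ) ^ I = (((2 : ℝ) ^ I) ^ 9) ^ ((1 : ℝ) / 9) := by
      rw [← Real.rpow_natCast ((2 : ℝ) ^ I) 9, ← Real.rpow_mul (by positivity)]
      norm_num
    rw [e1]
    have h5 : ((2 : ℝ) ^ I) ^ 9 ≤ 10 * d := by
      rw [hD] at hpow
      linarith
    calc (((2 : ℝ) ^ I) ^ 9) ^ ((1 : ℝ) / 9) ≤ (10 * (d : ℝ)) ^ ((1 : ℝ) / 9) :=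
          Real.rpow_le_rpow (by positivity) h5 (by norm_num)
      _ = (10 : ℝ) ^ ((1 : ℝ) / 9) * (d : ℝ) ^ ((1 : ℝ) / 9) := Real.mul_rpow (by norm_num) (by linarith)
      _ ≤ 10 * (d : ℝ) ^ ((1 : ℝ) / 9) := by
        apply mul_le_mul_of_nonneg_right _ (by positivity)
        calc (10 : ℝ) ^ ((1 : ℝ) / 9) ≤ (10 : ℝ) ^ (1 : ℝ) :=
              Real.rpow_le_rpow_of_exponent_le (by norm_num) (by norm_num)
          _ = 10 := Real.rpow_one _
  have hyd : y ≤ 5 * (d : ℝ) ^ ((1 : ℝ) / 3) := by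
    rw [hy]
    calc D ^ ((1 : ℝ) / 3) ≤ (5 * (d : ℝ)) ^ ((1 : ℝ) / 3) :=
          Real.rpow_le_rpow hD0.le (by rw [hD]; linarith) (by norm_num)
      _ = (5 : ℝ) ^ ((1 : ℝ) / 3) * (d : ℝ) ^ ((1 : ℝ) / 3) := Real.mul_rpow (by norm_num) (by linarith)
      _ ≤ 5 * (d : ℝ) ^ ((1 : ℝ) / 3) := by
        apply mul_le_mul_of_nonneg_right _ (by positivity)
        calc (5 : ℝ) ^ ((1 : ℝ) / 3) ≤ (5 : ℝ) ^ (1 : ℝ) :=
              Real.rpow_le_rpow_of_exponent_le (by norm_num) (by norm_num)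
          _ = 5 := Real.rpow_one _
  have h5 : (2 : ℝ) ^ I * y ≤ 50 * z := by
    calc (2 : ℝ) ^ I * y ≤ (10 * (d : ℝ) ^ ((1 : ℝ) / 9)) * (5 * (d : ℝ) ^ ((1 : ℝ) / 3)) :=
          mul_le_mul hx hyd hy0.le (by positivity)
      _ = 50 * ((d : ℝ) ^ ((1 : ℝ) / 9) * (d : ℝ) ^ ((1 : ℝ) / 3)) := by ring
      _ = 50 * z := by
        rw [← Real.rpow_add (by linarith), hz]
        norm_num
  have h6 : ((({r : ℕ | 10 ≤ r ∧ ¬ DegAll.{u} r d}.ncard : ℕ)) : ℝ) ≤
      ((64 ^ 9 + 2 : ℕ) : ℝ) + ((∑ i ∈ Is, (Im i).card : ℕ) : ℝ) := by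
    exact_mod_cast h1.trans h2
  rw [← hz]
  refine h6.trans ?_
  push_cast
  push_cast at h3
  nlinarith

end Pool.Agent.H46.CD
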