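import Pool.Graph.R_pool_sql_team_seeded_35f281b4.K7.H55.AN.Pow2

set_option autoImplicit false

/-!
# The second derivative test for `c / √r`
-/

namespace Pool.Agent.H46.CD

open Finset
open Pool.Agent.Helper153.Vdc (ee dd Cond)

/-- the second difference of the inverse square root -/
theorem inv_dd {X : ℝ} (hX : 2 < X) :
    (1 / √X - 1 / √(X - 1)) - (1 / √(X - 1) - 1 / √(X - 2)) =
      1 / (√(X - 2) * √(X - 1) * √X) * (1 / ((√(X - 1) + √X) * (√X + √(X - 2))) +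
        1 / ((√(X - 2) + √(X - 1)) * (√X + √(X - 2))) + 1 / ((√(X - 2) + √(X - 1)) * (√(X - 1) + √X))) := by
  obtain ⟨A, hA⟩ : ∃ A, A = √(X - 2) := ⟨_, rfl⟩
  obtain ⟨B, hB⟩ : ∃ B, B = √(X - 1) := ⟨_, rfl⟩
  obtain ⟨C, hC⟩ : ∃ C, C = √X := ⟨_, rfl⟩
  rw [← hA, ← hB, ← hC]
  have hA2 : A * A = X - 2 := by rw [hA]; exact Real.mul_self_sqrt (by linarith)
  have hB2 : B * B = X - 1 := by rw [hB]; exact Real.mul_self_sqrt (by linarith)
  have hC2 : C * C = X := by rw [hC]; exact Real.mul_self_sqrt (by linarith)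
  have hA0 : 0 < A := by rw [hA]; exact Real.sqrt_pos.2 (by linarith)
  have hB0 : 0 < B := by rw [hB]; exact Real.sqrt_pos.2 (by linarith)
  have hC0 : 0 < C := by rw [hC]; exact Real.sqrt_pos.2 (by linarith)
  have h1 : (B - A) * (A + B) = 1 := by linear_combination hB2 - hA2
  have h2 : (C - B) * (B + C) = 1 := by linear_combination hC2 - hB2
  have h3 : (C - A) * (C + A) = 2 := by linear_combination hC2 - hA2
  have e1 : 1 / A - 1 / B = 1 / (A * B * (A + B)) := by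
    rw [eq_div_iff (by positivity)]
    field_simp
    linear_combination h1
  have e2 : 1 / B - 1 / C = 1 / (B * C * (B + C)) := by
    rw [eq_div_iff (by positivity)]
    field_simp
    linear_combination h2
  have e3 : (1 / C - 1 / B) - (1 / B - 1 / A) = (1 / A - 1 / B) - (1 / B - 1 / C) := by ring
  rw [e3, e1, e2]
  field_simp
  linear_combination h3 * B + (C + A) * h2 + (C + A) * h1

/-- its size -/
theorem inv_dd_bounds {X R0 R1 : ℝ} (h0 : 0 < R0) (hX : R0 ≤ X - 2) (hX1 : X ≤ R1) :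
    3 / (4 * (R1 ^ 2 * √R1)) ≤ (1 / √X - 1 / √(X - 1)) - (1 / √(X - 1) - 1 / √(X - 2)) ∧
    (1 / √X - 1 / √(X - 1)) - (1 / √(X - 1) - 1 / √(X - 2)) ≤ 3 / (4 * (R0 ^ 2 * √R0)) := by
  rw [inv_dd (by linarith)]
  have hr0 : 0 < √R0 := Real.sqrt_pos.2 h0
  have hr1 : 0 < √R1 := Real.sqrt_pos.2 (by linarith)
  have e0 : √R0 * √R0 = R0 := Real.mul_self_sqrt h0.le
  have e1 : √R1 * √R1 = R1 := Real.mul_self_sqrt (by linarith)
  have a1 : √R0 ≤ √(X - 2) := Real.sqrt_le_sqrt hX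
  have a2 : √R0 ≤ √(X - 1) := Real.sqrt_le_sqrt (by linarith)
  have a3 : √R0 ≤ √X := Real.sqrt_le_sqrt (by linarith)
  have b1 : √(X - 2) ≤ √R1 := Real.sqrt_le_sqrt (by linarith)
  have b2 : √(X - 1) ≤ √R1 := Real.sqrt_le_sqrt (by linarith)
  have b3 : √X ≤ √R1 := Real.sqrt_le_sqrt hX1
  have p1 : 0 < √(X - 2) := lt_of_lt_of_le hr0 a1
  have p2 : 0 < √(X - 1) := lt_of_lt_of_le hr0 a2
  have p3 : 0 < √X := lt_of_lt_of_le hr0 a3
  have e3 : ∀ R : ℝ, 0 < √R → √R * √R = R → 3 / (4 * (R ^ 2 * √R)) = 1 / (√R * √R * √R) *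
      (1 / ((√R + √R) * (√R + √R)) + 1 / ((√R + √R) * (√R + √R)) + 1 / ((√R + √R) * (√R + √R))) := by
    intro R h1 h2
    obtain ⟨w, hw⟩ : ∃ w, w = √R := ⟨_, rfl⟩
    rw [← hw] at h1 h2 ⊢
    rw [← h2]
    field_simp
    ring
  constructor
  · rw [e3 R1 hr1 e1]
    gcongr
  · rw [e3 R0 hr0 e0]
    gcongr

/-- it decreases -/
theorem inv_dd_anti {X : ℝ} (hX : 3 < X) :
    (1 / √X - 1 / √(X - 1)) - (1 / √(X - 1) - 1 / √(X - 2)) ≤
      (1 / √(X - 1) - 1 / √(X - 1 - 1)) - (1 / √(X - 1 - 1) - 1 / √(X - 1 - 2)) := by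
  rw [inv_dd (by linarith), inv_dd (X := X - 1) (by linarith)]
  have hA0 : 0 < √(X - 1 - 2) := Real.sqrt_pos.2 (by linarith)
  have hB0 : 0 < √(X - 1 - 1) := Real.sqrt_pos.2 (by linarith)
  have hC0 : 0 < √(X - 1) := Real.sqrt_pos.2 (by linarith)
  have a1 : √(X - 1 - 2) ≤ √(X - 2) := Real.sqrt_le_sqrt (by linarith)
  have a2 : √(X - 1 - 1) ≤ √(X - 1) := Real.sqrt_le_sqrt (by linarith)
  have a3 : √(X - 1) ≤ √X := Real.sqrt_le_sqrt (by linarith)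
  gcongr

theorem cond_inv {c δ : ℝ} (hc : 0 < c) {R0 R1 : ℕ} (hδ : 0 < δ) (hδ1 : δ ≤ 1) (h0 : 0 < R0)
    (h01 : δ * R1 ≤ R0) :
    Cond 2 (fun n => c * (1 / √((R1 : ℝ) - n))) (R1 - R0) (c * (3 / (4 * ((R1 : ℝ) ^ 2 * √(R1 : ℝ)))))
      (1 / δ ^ 3) := by
  have hR0 : (0 : ℝ) < R0 := by exact_mod_cast h0
  have key : ∀ n : ℕ, dd 2 (fun n => c * (1 / √((R1 : ℝ) - n))) n =
      c * ((1 / √((R1 : ℝ) - n) - 1 / √(((R1 : ℝ) - n) - 1)) -
        (1 / √(((R1 : ℝ) - n) - 1) - 1 / √(((R1 : ℝ) - n) - 2))) := by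
    intro n
    simp only [dd]
    push_cast
    have e1 : (R1 : ℝ) - (n + 1) = ((R1 : ℝ) - n) - 1 := by ring
    have e2 : (R1 : ℝ) - (n + 1 + 1) = ((R1 : ℝ) - n) - 2 := by ring
    rw [e1, e2]
    ring
  constructor
  · intro n hn
    have hn1 : (R0 : ℝ) + (n + 2) ≤ R1 := by
      have : R0 + (n + 2) ≤ R1 := by omega
      exact_mod_cast this
    have hn0 : (0 : ℝ) ≤ n := Nat.cast_nonneg n
    have hR1 : (0 : ℝ) < R1 := by linarith
    obtain ⟨h1, h2⟩ := inv_dd_bounds (X := (R1 : ℝ) - n) (R1 := R1) hR0 (by linarith) (by linarith)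
    rw [key]
    refine ⟨mul_le_mul_of_nonneg_left h1 hc.le, ?_⟩
    refine (mul_le_mul_of_nonneg_left h2 hc.le).trans ?_
    have hs0 : 0 < √(R0 : ℝ) := Real.sqrt_pos.2 hR0
    have hs1 : 0 < √(R1 : ℝ) := Real.sqrt_pos.2 hR1
    have h3 : δ * √(R1 : ℝ) ≤ √(R0 : ℝ) := by
      apply Real.le_sqrt_of_sq_le
      rw [mul_pow, Real.sq_sqrt hR1.le]
      nlinarith
    have h4 : (δ * R1) ^ 2 * (δ * √(R1 : ℝ)) ≤ (R0 : ℝ) ^ 2 * √(R0 : ℝ) :=
      mul_le_mul (pow_le_pow_left₀ (by positivity) h01 2) h3 (by positivity) (by positivity)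
    have e : 1 / δ ^ 3 * (c * (3 / (4 * ((R1 : ℝ) ^ 2 * √(R1 : ℝ))))) =
        c * (3 / (4 * ((δ * R1) ^ 2 * (δ * √(R1 : ℝ))))) := by
      field_simp
    rw [e]
    refine mul_le_mul_of_nonneg_left ?_ hc.le
    apply div_le_div_of_nonneg_left (by norm_num) (by positivity)
    linarith
  · intro n hn
    have hn1 : (R0 : ℝ) + (n + 3) ≤ R1 := by
      have : R0 + (n + 3) ≤ R1 := by omega
      exact_mod_cast this
    have e3 : dd 3 (fun n => c * (1 / √((R1 : ℝ) - n))) n =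
        dd 2 (fun n => c * (1 / √((R1 : ℝ) - n))) (n + 1) -
        dd 2 (fun n => c * (1 / √((R1 : ℝ) - n))) n := by
      simp only [dd]
    rw [e3, key, key]
    push_cast
    have e1 : (R1 : ℝ) - (n + 1) = ((R1 : ℝ) - n) - 1 := by ring
    rw [e1]
    have h1 := inv_dd_anti (X := (R1 : ℝ) - n) (by linarith)
    have := mul_le_mul_of_nonneg_left h1 hc.le
    linarith

end Pool.Agent.H46.CD
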