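import Pool.Agent.H46.SD.Seq

set_option autoImplicit false

/-!
# Degrees slightly below integer multiples of the square roots of all non-squares up to a bound
-/

namespace Pool.Agent.H46.CD

open Finset Polynomial Pool.Agent.Q29.Eqd Pool.Agent.Q54.FM Pool.Agent.H46.SD

/-- the squarefree numbers between `2` and `R` -/
def sf (R : ℕ) : Finset ℕ := (Icc 2 R).filter Squarefree

/-- the least common multiple of the numbers up to `√R` -/
def ll (R : ℕ) : ℕ := (Icc 1 (Nat.sqrt R)).lcm id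

lemma mem_sf {R s : ℕ} : s ∈ sf R ↔ 2 ≤ s ∧ s ≤ R ∧ Squarefree s := by
  simp [sf, and_assoc]

lemma ll_ge {R : ℕ} (hR : 10 ≤ R) : 6 ≤ ll R := by
  have h3 : 3 ≤ Nat.sqrt R := Nat.le_sqrt.2 (by omega)
  have h2 : 2 ∣ ll R := dvd_lcm (f := id) (mem_Icc.2 ⟨by norm_num, by omega⟩)
  have h3' : 3 ∣ ll R := dvd_lcm (f := id) (mem_Icc.2 ⟨by norm_num, h3⟩)
  have hpos : 0 < ll R := by
    apply Nat.pos_of_ne_zero
    unfold ll
    rw [Finset.lcm_ne_zero_iff]
    intro x hx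
    rw [mem_Icc] at hx
    simp only [id]
    omega
  have h6 : 6 ∣ ll R := by omega
  exact Nat.le_of_dvd hpos h6

/-- **Degrees near multiples of all square roots.** -/
theorem near {R : ℕ} (hR : 10 ≤ R) (P : ℕ → Prop)
    (hP : ∀ d : ℕ, 0 < d → (∀ r : ℕ, r ≤ R → ¬ IsSquare r →
      ∃ z : ℤ, z * Real.sqrt r - 3 < d ∧ (d : ℝ) < z * Real.sqrt r) → P d) (K : ℕ) :
    ∃ κ : ℝ, 0 < κ ∧ κ ≤ 1 ∧ ∃ M₀ : ℕ, 2 ≤ M₀ ∧ ∀ M : ℕ, M₀ ≤ M →
      Sparse κ K M (1 - ∏ s ∈ sf R, 3 / ((ll R : ℝ) * Real.sqrt s)) P := by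
  have hl6 := ll_ge hR
  obtain ⟨l, hl⟩ : ∃ l, l = ll R := ⟨_, rfl⟩
  rw [← hl] at hl6
  rw [← hl]
  have hlR : (6 : ℝ) ≤ l := by exact_mod_cast hl6
  have hs1 : ∀ s ∈ sf R, 1 < Real.sqrt s := by
    intro s hs
    rw [Real.lt_sqrt (by norm_num)]
    have : (2 : ℝ) ≤ s := by exact_mod_cast (mem_sf.1 hs).1
    linarith
  have hB0 : ∀ s ∈ sf R, 0 < 3 / ((l : ℝ) * Real.sqrt s) := by
    intro s hs
    have := hs1 s hs
    positivity
  have hB1 : ∀ s ∈ sf R, 3 / ((l : ℝ) * Real.sqrt s) ≤ 1 := by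
    intro s hs
    have h1 := hs1 s hs
    rw [div_le_one (by positivity)]
    nlinarith
  obtain ⟨Q, hQ⟩ : ∃ Q, Q = ∏ s ∈ sf R, s := ⟨_, rfl⟩
  have hQ0 : 0 < Q := by
    rw [hQ]
    exact prod_pos fun s hs => by have := (mem_sf.1 hs).1; omega
  have hdvd : ∀ s ∈ sf R, s ∣ Q := by
    intro s hs
    rw [hQ]
    exact dvd_prod_of_mem _ hs
  have h := seqs_fin2 (k := 1) (sf R) ⟨2, mem_sf.2 ⟨le_rfl, by omega, Nat.prime_two.squarefree⟩⟩ id (fun s => Q / s)
    (fun s hs => (mem_sf.1 hs).2.2) (fun s hs h1 => by have := (mem_sf.1 hs).1; simp only [id] at h1; omega)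
    (fun s _ s' _ h1 => h1)
    (fun s hs => Nat.div_pos (Nat.le_of_dvd hQ0 (hdvd s hs)) (by have := (mem_sf.1 hs).1; omega))
    (l * Q) (by nlinarith) (fun s => 3 / ((l : ℝ) * Real.sqrt s)) (fun _ _ => 0)
    (fun s _ => 3 / ((l : ℝ) * Real.sqrt s)) (fun s hs _ => le_rfl) (fun s hs _ => (hB0 s hs).le)
    (fun s hs _ => hB1 s hs) (fun s hs i i' hi => absurd hi (by rw [Subsingleton.elim i i']; exact lt_irrefl _))
    (fun s hs => by simpa using hB1 s hs) P (fun d hd hfr => by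
      apply hP d hd
      intro r hrR hsq
      obtain ⟨s, b, hb, hsf⟩ := Nat.sq_mul_squarefree r
      have hs0 : s ≠ 0 := hsf.ne_zero
      have hs1' : s ≠ 1 := by
        rintro rfl
        apply hsq
        exact ⟨b, by rw [← hb]; ring⟩
      have hb0 : 0 < b := by
        apply Nat.pos_of_ne_zero
        rintro rfl
        apply hsq
        rw [← hb]
        exact ⟨0, by simp⟩
      have hsr : s ≤ r := by
        rw [← hb]
        exact Nat.le_mul_of_pos_left _ (by positivity)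
      have hmem : s ∈ sf R := mem_sf.2 ⟨by omega, by omega, hsf⟩
      have hbR : b ≤ Nat.sqrt R := by
        apply Nat.le_sqrt'.2
        refine le_trans ?_ hrR
        rw [← hb]
        exact Nat.le_mul_of_pos_right _ (by omega)
      obtain ⟨c, hc⟩ : b ∣ l := by
        rw [hl]
        exact dvd_lcm (f := id) (mem_Icc.2 ⟨hb0, hbR⟩)
      obtain ⟨i, h1, h2⟩ := hfr s hmem
      simp only [id] at h1 h2
      have hss := hs1 s hmem
      have hrs : Real.sqrt r = b * Real.sqrt s := by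
        rw [← hb]
        push_cast
        rw [Real.sqrt_mul (by positivity), Real.sqrt_sq (by positivity)]
      obtain ⟨w, hw⟩ : ∃ w, w = Real.sqrt s := ⟨_, rfl⟩
      rw [← hw] at h1 h2 hss hrs
      have hww : w * w = s := by rw [hw]; exact Real.mul_self_sqrt (by positivity)
      have hw0 : 0 < w := by linarith
      have hsR : (0 : ℝ) < s := by exact_mod_cast Nat.pos_of_ne_zero hs0
      have hQR : (0 : ℝ) < Q := by exact_mod_cast hQ0
      have hl0 : (0 : ℝ) < l := by linarith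
      have hy : (((Q / s : ℕ) : ℝ) * w / ((l * Q : ℕ) : ℝ) * d + 3 / (l * w)) = (d + 3) / (l * w) := by
        rw [Nat.cast_div (hdvd s hmem) (by exact_mod_cast hs0)]
        push_cast
        rw [← hww]
        field_simp
      rw [hy] at h1 h2
      obtain ⟨y, hyy⟩ : ∃ y, y = ((d : ℝ) + 3) / (l * w) := ⟨_, rfl⟩
      rw [← hyy] at h1 h2
      have hd3 : (d : ℝ) + 3 = l * w * y := by
        rw [hyy]
        field_simp
      have h3 := Int.self_sub_floor y
      refine ⟨⌊y⌋ * c, ?_⟩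
      have e1 : (((⌊y⌋ * (c : ℤ) : ℤ)) : ℝ) * Real.sqrt r = l * w * ⌊y⌋ := by
        rw [hrs, hc]
        push_cast
        ring
      rw [e1]
      have hlw : 0 < l * w := by positivity
      have h4 : 0 < l * w * Int.fract y := mul_pos hlw h1
      have h5 : l * w * Int.fract y < 3 := by
        rw [lt_div_iff₀ hlw] at h2
        linarith
      rw [← h3, mul_sub, ← hd3] at h4 h5
      constructor <;> linarith) K
  obtain ⟨κ, hκ, hκ1, M₀, hM₀, h⟩ := h
  refine ⟨κ, hκ, hκ1, M₀, hM₀, fun M hM => ?_⟩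
  have h2 := h M hM
  simpa using h2

lemma prop_pos {R : ℕ} (hR : 10 ≤ R) : 0 < ∏ s ∈ sf R, 3 / ((ll R : ℝ) * Real.sqrt s) := by
  apply prod_pos
  intro s hs
  have h1 := ll_ge hR
  have h2 : (6 : ℝ) ≤ ll R := by exact_mod_cast h1
  have h3 : (2 : ℝ) ≤ s := by exact_mod_cast (mem_sf.1 hs).1
  have h4 : 0 < Real.sqrt s := Real.sqrt_pos.2 (by linarith)
  positivity

end Pool.Agent.H46.CD
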